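import Pool.Agent.J4.H58.MUR.CmMain

/-!
# `μ = 0` for CM fields and the growth in unramified extensions of totally real fields
-/

set_option autoImplicit false

namespace Pool.Agent.Results.MP_a4986b_nt.CMGrowth

open IntermediateField Pool.Agent.Q60.MU Pool.Agent.J4.H53.IW Pool.Agent.J4.H58.MUR NumberField
open Pool.Agent.W5h77.MB (IsLayer)

/-- Let `E` be a CM field and `S` a set of primes other than `p`. Then `μ = 0` for all CM fields if
and only if `μ = 0` for the CM fields `M` which are Galois over `E` of degree prime to `S`, with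
Galois groups without nontrivial normal `p`-subgroups, and the `p`-ranks of the class groups do not
grow more in `L E` than in `K E` for all unramified cyclic extensions `L/K` of degree in `S` of
totally real fields containing the real subfield of `E`, with prescribed completions above finitely
many primes. -/
theorem result (p : ℕ) (hp : p.Prime) (hp2 : p ≠ 2) (R : ℕ → IntermediateField ℚ Qb)
    (hR : ∀ m, IsLayer p m (R m)) (S : Set ℕ) (hS : p ∉ S) (E k : IntermediateField ℚ Qb)
    (hE : IsFin E) (hEcm : IsCMField E) (hk : IsFin k) (q : ℕ) (hq : q ≠ 0) :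
    (∀ F : IntermediateField ℚ Qb, IsFin F → IsCMField F → Vanishes p R F) ↔
      (∀ M : IntermediateField ℚ Qb, IsFin M → IsCMField M → E ≤ M → Stable E M →
        Reduced p S E M → Vanishes p R M) ∧
      ∀ l K L, RealStep S q E k l K L → RelBounded p R (K ⊔ E) (L ⊔ E) := by
  refine ⟨fun h => ⟨fun M hM hMcm _ _ _ => h M hM hMcm, fun l K L hg => ?_⟩,
    fun h F hF hFcm => cm_mu hp hp2 hR hS hE hEcm hk hq h.1 h.2 hF hFcm⟩
  obtain ⟨-, -, hL, hLr, -, hs, -⟩ := hg
  have hEf : FiniteDimensional ℚ E := hE
  have hLf : FiniteDimensional ℚ L := hL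
  exact relBounded_of (sup_le_sup_right hs.1 E)
    (h _ (show IsFin (L ⊔ E) from IntermediateField.finiteDimensional_sup L E)
      (isCM_sup hE hEcm hL hLr))

end Pool.Agent.Results.MP_a4986b_nt.CMGrowth
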