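import Pool.Agent.J4.H53.IW.Free

/-!
# Iwasawa's `μ = 0` conjecture: reduction to CM fields and fields with a real embedding

Let `p` be an odd prime. All fields are subfields of a fixed algebraic closure `Qb` of `ℚ`; `R m` is the
`m`-th layer of the cyclotomic `ℤ_p`-extension of `ℚ` (`IsLayer p m (R m)`: degree `p ^ m` over `ℚ` and
contained in a field generated by roots of unity of `p`-power order). `MuZero p R F` says that the
degrees of the unramified elementary abelian `p`-extensions of the layers `F R m` are bounded, that
is (class field theory), that the orders of `Cl(F R m) / p` are bounded; by Iwasawa this is `μ = 0`.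

A number field `E` is *special* if the group of automorphisms of `E` acts freely on the nonzero vectors
of a nonzero finite-dimensional representation over `𝔽_p` and if `E` is a CM field of degree prime
to `p`, or has a real embedding.

Theorem. (1) For a Galois extension `N / ℚ`, `μ = 0` for `N` if and only if `μ = 0` for all special
subfields of `N`. (2) `μ = 0` for all number fields if and only if `μ = 0` for all special number
fields. (3) If `E` is special, then `p` does not divide the number of automorphisms of `E`, and all
commutative subgroups of the group of automorphisms are cyclic.

Proof. `μ = 0` for `N` follows from `μ = 0` for a family of subfields `E` such that all simple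
representations `S` of the Galois group over `𝔽_p` have a nonzero vector fixed by the group of some
`E` (this is in the library, for towers in which the number of primes above every prime number is
bounded; that the cyclotomic tower has this property is proved in `FinDec`). If complex
conjugation `c` fixes a nonzero vector of `S`, we take a vector `v` whose stabilizer is maximal and
contains `c`; then `ℚ(v)` has a real embedding. Otherwise `c` acts as `-1`, it is central modulo the
kernel, and all the fields `ℚ(v)` are CM fields; we take a `v` whose stabilizer is maximal and contains a
Sylow `p`-subgroup. As the stabilizer `H` of `v` is maximal, `N(H) / H = Aut(ℚ(v))` acts freely on the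
nonzero vectors of `S ^ H`.
-/

set_option autoImplicit false

namespace Pool.Agent.Results.MP_a4986b_nt.RealEmbeddings

open Pool.Agent.Q60.MU Pool.Agent.W5h77.MB Pool.Agent.J4.H53.IW IntermediateField Module NumberField

theorem result (p : ℕ) [Fact p.Prime] (hp2 : p ≠ 2) (R : ℕ → IntermediateField ℚ Qb)
    (hR : ∀ m, IsLayer p m (R m)) :
    (∀ N : IntermediateField ℚ Qb, IsFin N → IsGalois ℚ N →
      (Vanishes p R N ↔ ∀ E ≤ N, Special p E → Vanishes p R E)) ∧
    ((∀ F, IsFin F → Vanishes p R F) ↔ ∀ E, IsFin E → Special p E → Vanishes p R E) ∧
    (∀ E, IsFin E → Special p E → AutFacts p E) :=
  ⟨fun N hN hNn => galois_iff hp2 R hR N hN hNn,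
    ⟨fun h E hE _ => h E hE, fun h F hF => reduce hp2 R hR h F hF⟩,
    fun _ hE hs => freeAut_facts hE hs.1⟩

end Pool.Agent.Results.MP_a4986b_nt.RealEmbeddings
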