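import Pool.Agent.J4.H58.MUR.RealMain

/-!
# `μ = 0` for totally real fields and the growth in unramified extensions
-/

set_option autoImplicit false

namespace Pool.Agent.Results.MP_a4986b_nt.TotallyRealGrowth

open IntermediateField Pool.Agent.Q60.MU Pool.Agent.J4.H53.IW Pool.Agent.J4.H58.MUR
open Pool.Agent.W5h77.MB (IsLayer)

/-- Let `E` be a totally real field and `S` a set of primes other than `p`. Then `μ = 0` for all
totally real fields if and only if `μ = 0` for the totally real fields `M` which are Galois over `E`
of degree prime to `S`, with Galois groups without nontrivial normal `p`-subgroups, and the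
`p`-ranks of the class groups do not grow more in `L` than in `K` for all everywhere unramified
cyclic extensions `L/K` of degree in `S` of totally real fields containing `E`, with prescribed
completions above finitely many primes. -/
theorem result (p : ℕ) (hp : p.Prime) (hp2 : p ≠ 2) (R : ℕ → IntermediateField ℚ Qb)
    (hR : ∀ m, IsLayer p m (R m)) (S : Set ℕ) (hS : p ∉ S) (E k : IntermediateField ℚ Qb)
    (hE : IsFin E) (hEr : TotReal E) (hk : IsFin k) (q : ℕ) (hq : q ≠ 0) :
    (∀ F : IntermediateField ℚ Qb, IsFin F → TotReal F → Vanishes p R F) ↔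
      (∀ M : IntermediateField ℚ Qb, IsFin M → TotReal M → E ≤ M → Stable E M →
        Reduced p S E M → M = ⊥ ∨ Vanishes p R M) ∧
      ∀ l K L, E ≤ K → RStep S q k l K L → RelBounded p R K L := by
  refine ⟨fun h => ⟨fun M hM hMr _ _ _ => Or.inr (h M hM hMr), fun l K L _ hg => ?_⟩,
    fun h F hF hFr => real_mu hp hp2 hR hS hE hEr hk hq h.1 h.2 hF hFr⟩
  exact relBounded_of hg.2.2.2.2.1.1 (h L hg.2.2.1 hg.2.2.2.1)

end Pool.Agent.Results.MP_a4986b_nt.TotallyRealGrowth
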