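import Pool.Agent.J4.H58.MUR.Sel

/-!
# `μ = 0` and the growth in unramified extensions
-/

set_option autoImplicit false

namespace Pool.Agent.Results.MP_a4986b_nt.UnramifiedGrowth

open IntermediateField Pool.Agent.Q60.MU Pool.Agent.J4.H53.IW Pool.Agent.J4.H58.MUR
open Pool.Agent.W5h77.MB (IsLayer)
open scoped Pointwise

/-- `K'` is a totally complex number field with `N ∩ K' = ℚ` such that `N K'/K'` is unramified at
all finite primes and that `N` and `k` lie in all completions of `K'` above `q`. -/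
def Covers (q : ℕ) (k N K' : IntermediateField ℚ Qb) : Prop :=
  IsFin K' ∧ ¬ HasReal K' ∧ N ⊓ K' = ⊥ ∧ Unram K' N ∧ LocallyContains q K' (N ⊔ k)

/-- The extensions `L/K` of the theorem, of degree `l ∈ S`. -/
def Good (S : Set ℕ) (q : ℕ) (k : IntermediateField ℚ Qb) (l : ℕ) (K L : IntermediateField ℚ Qb) :
    Prop :=
  l.Prime ∧ l ∈ S ∧ IsFin L ∧ ¬ HasReal K ∧ UnramifiedStep l K L ∧ LocallyContains q K (L ⊔ k)

theorem exists_galois {F : IntermediateField ℚ Qb} (hF : IsFin F) :
    ∃ N : IntermediateField ℚ Qb, FiniteDimensional ℚ N ∧ IsGalois ℚ N ∧ F ≤ N := by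
  have hFf : FiniteDimensional ℚ F := hF
  have hUf : F.fixingSubgroup.FiniteIndex := ⟨index_ne_zero' F⟩
  set K := F.fixingSubgroup.normalCore with hKdef
  have hKn : K.Normal := Subgroup.normalCore_normal _
  have hKo : IsOpen (K : Set Gal(Qb/ℚ)) :=
    isOpen_normalCore F.fixingSubgroup_isOpen (index_ne_zero' F)
  have hKf : K.index ≠ 0 := by
    have : K.FiniteIndex := F.fixingSubgroup.finiteIndex_normalCore
    exact Subgroup.FiniteIndex.index_ne_zero
  have hfix := fix_fixed hKo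
  exact ⟨fixedField K, finite_fixed hKo hKf,
    (InfiniteGalois.normal_iff_isGalois (fixedField K)).1 (by rw [hfix]; exact hKn),
    (le_iff_le _ _).2 (Subgroup.normalCore_le _)⟩

/-- Iwasawa: `μ = 0` for `ℚ`. -/
theorem vanishes_bot {p : ℕ} (hp : p.Prime) {R : ℕ → IntermediateField ℚ Qb}
    (hR : ∀ m, IsLayer p m (R m)) : Vanishes p R ⊥ := by
  have hpf : Fact p.Prime := ⟨hp⟩
  refine ⟨1, fun m => ?_⟩
  have hRf := Pool.Agent.W5h77.MB.layer_fd hp (hR m)
  have hRg := Pool.Agent.W5h77.MB.layer_galois hp (hR m)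
  rw [bot_sup_eq]
  exact (rankLe_iff (R m) 1).1 (rank_layer (hR m))

theorem local_form {p : ℕ} (hp : p.Prime) (hp2 : p ≠ 2) {R : ℕ → IntermediateField ℚ Qb}
    (hR : ∀ m, IsLayer p m (R m)) {S : Set ℕ} (hS : p ∉ S) {E k : IntermediateField ℚ Qb}
    (hk : IsFin k) {q : ℕ} (hq : q ≠ 0) {N : IntermediateField ℚ Qb} (hN : IsFin N)
    (hNg : IsGalois ℚ N) (hEN : E ≤ N) :
    ∃ K', Covers q k N K' ∧
      ((∀ M ≤ N, E ≤ M → Stable E M → Reduced p S E M → M = ⊥ ∨ Vanishes p R M) →
        (∀ l K L, K' ⊔ E ≤ K → L ≤ N ⊔ K' → Good S q k l K L → RelBounded p R K L) →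
        Vanishes p R N) := by
  have hpf : Fact p.Prime := ⟨hp⟩
  have hNf : FiniteDimensional ℚ N := hN
  have hkf : FiniteDimensional ℚ k := hk
  have hNk : IsFin (N ⊔ k) := IntermediateField.finiteDimensional_sup N k
  obtain ⟨G, hGf, hGg, hG⟩ := exists_galois hNk
  obtain ⟨K', hK'f, hreal, hgen, hdec, hun⟩ := exists_base G hq
  have hGNk : G.fixingSubgroup ≤ (N ⊔ k).fixingSubgroup := fixingSubgroup_le hG
  have hGN : G.fixingSubgroup ≤ N.fixingSubgroup := fixingSubgroup_le (le_sup_left.trans hG)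
  refine ⟨K', ⟨hK'f, fun ⟨φ, hφ⟩ => hreal φ hφ, ?_, ?_, ?_⟩, ?_⟩
  · rw [eq_bot_iff]
    rintro x ⟨hxN, hxK⟩
    rw [InfiniteGalois.mem_bot_iff_fixed]
    intro g
    obtain ⟨n, hn, a, ha, rfl⟩ := hgen g
    rw [AlgEquiv.mul_apply, (mem_fixingSubgroup_iff _ _).1 ha x hxK,
      (mem_fixingSubgroup_iff _ _).1 (hGN hn) x hxN]
  · intro A σ hσA hσ x hx
    exact (mem_fixingSubgroup_iff _ _).1 (hGN (hun A ⟨hσA, hσ⟩)) x hx
  · intro A hA σ hσ hσA x hx
    exact (mem_fixingSubgroup_iff _ _).1 (hGNk (hdec A hA σ hσ hσA)) x hx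
  · intro hb h
    obtain ⟨M, hEM, hMN, hst, hred, hMS⟩ := exists_base_field (p := p) (S := S) hEN
    have hMf : FiniteDimensional ℚ M :=
      Submodule.finiteDimensional_of_le (S₁ := Subalgebra.toSubmodule M.toSubalgebra)
        (S₂ := Subalgebra.toSubmodule N.toSubalgebra) hMN
    have hGM : G.fixingSubgroup ≤ M.fixingSubgroup := hGN.trans (fixingSubgroup_le hMN)
    have hM' : Vanishes p R M := by
      rcases hb M hMN hEM hst hred with rfl | h1
      · exact vanishes_bot hp hR
      · exact h1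
    have hK'M : FiniteDimensional ℚ ↥(K' ⊔ M) := IntermediateField.finiteDimensional_sup K' M
    have hEq : N ⊔ (K' ⊔ M) = N ⊔ K' :=
      le_antisymm (sup_le le_sup_left (sup_le le_sup_right (hMN.trans le_sup_left)))
        (sup_le_sup_left le_sup_left _)
    refine mu_of_steps_sel hp hp2 hR (E := M) (K' := K' ⊔ M) hMN le_sup_right (fun g hg => ?_)
      (fun A σ hσ => ?_) hM' hS hMS ?_
    · obtain ⟨n, hn, a, ha, hna⟩ := hgen g
      refine ⟨n, hGN hn, a, ?_, hna⟩
      rw [fixingSubgroup_sup]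
      refine ⟨ha, ?_⟩
      have h1 : a = n⁻¹ * g := by rw [hna, inv_mul_cancel_left]
      rw [h1]
      exact M.fixingSubgroup.mul_mem (M.fixingSubgroup.inv_mem (hGM hn)) hg
    · refine hGN (hun A ⟨hσ.1, ?_⟩)
      have h1 := hσ.2
      rw [fixingSubgroup_sup] at h1
      exact h1.1
    · intro l K L hl hlS hK hL hs
      rw [hEq] at hL
      have hfd : FiniteDimensional ℚ ↥(N ⊔ K') := IntermediateField.finiteDimensional_sup N K'
      have hKK : K' ≤ K := le_sup_left.trans hK
      refine h l K L ((sup_le_sup_left hEM _).trans hK) hL ⟨hl, hlS, ?_, ?_, hs, ?_⟩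
      · exact Submodule.finiteDimensional_of_le (S₁ := Subalgebra.toSubmodule L.toSubalgebra)
          (S₂ := Subalgebra.toSubmodule (N ⊔ K').toSubalgebra) hL
      · rintro ⟨φ, hφ⟩
        refine hreal (φ.comp (inclusion hKK).toRingHom) ?_
        have h1 : ∀ x : K', (starRingEnd ℂ) (φ (inclusion hKK x)) = φ (inclusion hKK x) :=
          fun x => RingHom.congr_fun hφ (inclusion hKK x)
        exact RingHom.ext h1
      · intro A hA σ hσ hσA x hx
        have hσ' : σ ∈ K'.fixingSubgroup := fixingSubgroup_le hKK hσ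
        have h1 : σ ∈ (N ⊔ k).fixingSubgroup := hGNk (hdec A hA σ hσ' hσA)
        rw [fixingSubgroup_sup] at h1
        have h2 : σ ∈ (N ⊔ K').fixingSubgroup := by
          rw [fixingSubgroup_sup]
          exact ⟨h1.1, hσ'⟩
        have h3 : σ ∈ (L ⊔ k).fixingSubgroup := by
          rw [fixingSubgroup_sup]
          exact ⟨fixingSubgroup_le hL h2, h1.2⟩
        exact (mem_fixingSubgroup_iff _ _).1 h3 x hx

/-- Let `S` be a set of primes other than `p`. Then `μ = 0` for all number fields if and only if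
`μ = 0` for the finite Galois extensions `M/E` of degree prime to `S` whose Galois groups have no
nontrivial normal `p`-subgroups, and the `p`-ranks of the class groups do not grow more in `L` than
in `K` for all unramified cyclic extensions `L/K` of degree in `S` of totally complex fields
containing `E`, with prescribed completions above finitely many primes. -/
theorem result (p : ℕ) (hp : p.Prime) (hp2 : p ≠ 2) (R : ℕ → IntermediateField ℚ Qb)
    (hR : ∀ m, IsLayer p m (R m)) (S : Set ℕ) (hS : p ∉ S) (E k : IntermediateField ℚ Qb)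
    (hE : IsFin E) (hk : IsFin k) (q : ℕ) (hq : q ≠ 0) :
    ((∀ F, IsFin F → Vanishes p R F) ↔
      (∀ M, IsFin M → E ≤ M → Stable E M → Reduced p S E M → M = ⊥ ∨ Vanishes p R M) ∧
        ∀ l K L, E ≤ K → Good S q k l K L → RelBounded p R K L) ∧
    ∀ N : IntermediateField ℚ Qb, IsFin N → IsGalois ℚ N → E ≤ N → ∃ K', Covers q k N K' ∧
      ((∀ M ≤ N, E ≤ M → Stable E M → Reduced p S E M → M = ⊥ ∨ Vanishes p R M) →
        (∀ l K L, K' ⊔ E ≤ K → L ≤ N ⊔ K' → Good S q k l K L → RelBounded p R K L) →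
        Vanishes p R N) := by
  refine ⟨⟨fun h => ⟨fun M hM _ _ _ => Or.inr (h M hM), fun l K L _ hg => ?_⟩, fun h F hF => ?_⟩,
    fun N hN hNg hEN => local_form hp hp2 hR hS hk hq hN hNg hEN⟩
  · exact relBounded_of hg.2.2.2.2.1.1 (h L hg.2.2.1)
  · have hEf : FiniteDimensional ℚ E := hE
    have hFf : FiniteDimensional ℚ F := hF
    obtain ⟨N, hNf, hNg, hFN⟩ := exists_galois
      (show IsFin (F ⊔ E) from IntermediateField.finiteDimensional_sup F E)
    obtain ⟨K', -, hK'⟩ := local_form hp hp2 hR hS hk hq hNf hNg (le_sup_right.trans hFN)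
    have h1 := hK' (fun M hMN hEM => h.1 M (Submodule.finiteDimensional_of_le
      (S₁ := Subalgebra.toSubmodule M.toSubalgebra)
      (S₂ := Subalgebra.toSubmodule N.toSubalgebra) hMN) hEM)
      fun l K L hK _ hg => h.2 l K L (le_sup_right.trans hK) hg
    have hRf : ∀ m, FiniteDimensional ℚ (R m) := fun m => Pool.Agent.W5h77.MB.layer_fd hp (hR m)
    have hDo : ∀ m, IsOpen ((R m).fixingSubgroup : Set Gal(Qb/ℚ)) := fun m => by
      have := hRf m
      exact (R m).fixingSubgroup_isOpen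
    have hKn : N.fixingSubgroup.Normal := (InfiniteGalois.normal_iff_isGalois N).2 hNg
    show MuZero p R F
    rw [← mu_iff hRf]
    exact Mu0.of_le hDo hKn (fixingSubgroup_le (le_sup_left.trans hFN)) N.fixingSubgroup_isOpen
      (index_ne_zero' N) ((mu_iff hRf N).2 h1)

end Pool.Agent.Results.MP_a4986b_nt.UnramifiedGrowth
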